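import Pool.Agent.W648.UN.Stm

set_option autoImplicit false
set_option linter.unusedSectionVars false

open MeasureTheory Set Filter Topology

noncomputable section

namespace Pool.Agent.W571.UN.Base

open Pool.Agent.W648.UN

/-! ### A contraction lemma for functions on `[0,1)` -/

/-- fixed points of contractions of closed balls of continuous functions on `[0,1)` -/
theorem fixpt {A : Type} [NormedAddCommGroup A] [CompleteSpace A] (c : A) (r : ℝ) (hr : 0 ≤ r)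
    (T : (ℝ → A) → (ℝ → A))
    (hT : ∀ f : ℝ → A, ContinuousOn f (Ico (0 : ℝ) 1) → (∀ x ∈ Ico (0 : ℝ) 1, ‖f x - c‖ ≤ r) →
      ContinuousOn (T f) (Ico (0 : ℝ) 1) ∧ ∀ x ∈ Ico (0 : ℝ) 1, ‖T f x - c‖ ≤ r)
    (hL : ∀ f g : ℝ → A, ContinuousOn f (Ico (0 : ℝ) 1) → (∀ x ∈ Ico (0 : ℝ) 1, ‖f x - c‖ ≤ r) →
      ContinuousOn g (Ico (0 : ℝ) 1) → (∀ x ∈ Ico (0 : ℝ) 1, ‖g x - c‖ ≤ r) →
      ∀ δ : ℝ, (∀ x ∈ Ico (0 : ℝ) 1, ‖f x - g x‖ ≤ δ) →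
        ∀ x ∈ Ico (0 : ℝ) 1, ‖T f x - T g x‖ ≤ δ / 2) :
    ∃ f : ℝ → A, ContinuousOn f (Ico (0 : ℝ) 1) ∧ (∀ x ∈ Ico (0 : ℝ) 1, ‖f x - c‖ ≤ r) ∧
      ∀ x ∈ Ico (0 : ℝ) 1, T f x = f x := by
  classical
  set F : ℕ → (ℝ → A) := fun n => T^[n] (fun _ => c) with hF
  have hFs : ∀ n, F (n + 1) = T (F n) := by
    intro n
    rw [hF]
    exact Function.iterate_succ_apply' T n _
  have hFp : ∀ n, ContinuousOn (F n) (Ico (0 : ℝ) 1) ∧ ∀ x ∈ Ico (0 : ℝ) 1, ‖F n x - c‖ ≤ r := by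
    intro n
    induction n with
    | zero =>
      refine ⟨?_, ?_⟩
      · exact continuousOn_const
      · intro x _
        simpa [hF] using hr
    | succ n ih =>
      rw [hFs]
      exact hT _ ih.1 ih.2
  have hd : ∀ n, ∀ x ∈ Ico (0 : ℝ) 1, ‖F (n + 1) x - F n x‖ ≤ (2 * r) / 2 / 2 ^ n := by
    intro n
    induction n with
    | zero =>
      intro x hx
      have h := (hFp 1).2 x hx
      have h0 : F 0 x = c := rfl
      rw [h0]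
      simpa using h
    | succ n ih =>
      intro x hx
      rw [hFs (n + 1)]
      have h2 : F (n + 1) x = T (F n) x := by rw [hFs n]
      rw [h2]
      have h := hL (F (n + 1)) (F n) (hFp _).1 (hFp _).2 (hFp _).1 (hFp _).2 _ ih x hx
      refine le_trans h (le_of_eq ?_)
      rw [pow_succ]
      ring
  have hdd : ∀ x ∈ Ico (0 : ℝ) 1, ∀ n, dist (F n x) (F (n + 1) x) ≤ (2 * r) / 2 / 2 ^ n := by
    intro x hx n
    rw [dist_comm, dist_eq_norm]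
    exact hd n x hx
  have hlim : ∀ x ∈ Ico (0 : ℝ) 1, ∃ a, Tendsto (fun n => F n x) atTop (𝓝 a) := by
    intro x hx
    exact cauchySeq_tendsto_of_complete (cauchySeq_of_le_geometric_two (hdd x hx))
  choose! f hf using hlim
  have hbound : ∀ n, ∀ x ∈ Ico (0 : ℝ) 1, ‖F n x - f x‖ ≤ 2 * r / 2 ^ n := by
    intro n x hx
    rw [← dist_eq_norm]
    exact dist_le_of_le_geometric_two_of_tendsto (hdd x hx) (hf x hx) n
  have hlim0 : Tendsto (fun n : ℕ => 2 * r / 2 ^ n) atTop (𝓝 0) := by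
    have h1 : Tendsto (fun n : ℕ => (1 / 2 : ℝ) ^ n) atTop (𝓝 0) :=
      tendsto_pow_atTop_nhds_zero_of_lt_one (by norm_num) (by norm_num)
    have h2 := h1.const_mul (2 * r)
    rw [mul_zero] at h2
    refine h2.congr ?_
    intro n
    rw [div_pow, one_pow]
    ring
  have hunif : TendstoUniformlyOn F f atTop (Ico (0 : ℝ) 1) := by
    rw [Metric.tendstoUniformlyOn_iff]
    intro ε hε
    filter_upwards [hlim0.eventually (gt_mem_nhds hε)] with n hn x hx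
    rw [dist_comm, dist_eq_norm]
    exact lt_of_le_of_lt (hbound n x hx) hn
  have hfc : ContinuousOn f (Ico (0 : ℝ) 1) :=
    hunif.continuousOn (Frequently.of_forall fun n => (hFp n).1)
  have hfb : ∀ x ∈ Ico (0 : ℝ) 1, ‖f x - c‖ ≤ r := by
    intro x hx
    have h1 : Tendsto (fun n => ‖F n x - c‖) atTop (𝓝 ‖f x - c‖) :=
      ((hf x hx).sub_const c).norm
    exact le_of_tendsto h1 (Eventually.of_forall fun n => (hFp n).2 x hx)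
  refine ⟨f, hfc, hfb, ?_⟩
  intro x hx
  have h1 : Tendsto (fun n => F (n + 1) x) atTop (𝓝 (f x)) :=
    (hf x hx).comp (tendsto_add_atTop_nat 1)
  have h2 : Tendsto (fun n => F (n + 1) x) atTop (𝓝 (T f x)) := by
    rw [tendsto_iff_norm_sub_tendsto_zero]
    have h3 : Tendsto (fun n : ℕ => 2 * r / 2 ^ n / 2) atTop (𝓝 0) := by
      simpa using hlim0.div_const 2
    refine squeeze_zero (fun n => norm_nonneg _) ?_ h3
    intro n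
    rw [hFs n]
    exact hL (F n) f (hFp _).1 (hFp _).2 hfc hfb _ (hbound n) x hx
  exact tendsto_nhds_unique h2 h1

/-- a bounded function whose bounds can be halved vanishes -/
theorem zero_of_half {A : Type} [NormedAddCommGroup A] (d : ℝ → A) (S : Set ℝ) (δ : ℝ)
    (h0 : ∀ x ∈ S, ‖d x‖ ≤ δ)
    (h : ∀ δ : ℝ, (∀ x ∈ S, ‖d x‖ ≤ δ) → ∀ x ∈ S, ‖d x‖ ≤ δ / 2) :
    ∀ x ∈ S, d x = 0 := by
  have hn : ∀ n : ℕ, ∀ x ∈ S, ‖d x‖ ≤ δ * (1 / 2) ^ n := by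
    intro n
    induction n with
    | zero => simpa using h0
    | succ n ih =>
      intro x hx
      refine le_trans (h _ ih x hx) (le_of_eq ?_)
      rw [pow_succ]; ring
  intro x hx
  have h1 : Tendsto (fun n : ℕ => δ * (1 / 2 : ℝ) ^ n) atTop (𝓝 (δ * 0)) :=
    (tendsto_pow_atTop_nhds_zero_of_lt_one (by norm_num) (by norm_num)).const_mul δ
  rw [mul_zero] at h1
  have h2 : ‖d x‖ ≤ 0 := ge_of_tendsto h1 (Eventually.of_forall fun n => hn n x hx)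
  exact norm_le_zero_iff.mp h2

/-! ### elementary inequalities -/

theorem two_quarter : (2 : ℝ) ^ (1 / 4 : ℝ) ≤ 6 / 5 := by
  have h1 : ((6 / 5 : ℝ) ^ (4 : ℕ)) ^ (1 / 4 : ℝ) = 6 / 5 := by
    rw [← Real.rpow_natCast, ← Real.rpow_mul (by norm_num)]
    norm_num
  rw [← h1]
  apply Real.rpow_le_rpow (by norm_num) (by norm_num) (by norm_num)

theorem D_lower (hD : S_D) {b : ℂ} (hb : b ∈ Om) {s : ℝ} (hs : s ∈ Ico (0 : ℝ) 1) :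
    (1 - s) ^ (1 / 2 : ℝ) ≤ ‖D b s‖ := by
  have h := (hD.1 b hb s hs).2.2.1
  rw [← Real.sqrt_eq_rpow]
  exact Real.sqrt_le_iff.mpr ⟨norm_nonneg _, h⟩

theorem D_ne (hD : S_D) {b : ℂ} (hb : b ∈ Om) {s : ℝ} (hs : s ∈ Ico (0 : ℝ) 1) : D b s ≠ 0 :=
  (hD.1 b hb s hs).1

theorem Dinv_le (hD : S_D) {b : ℂ} (hb : b ∈ Om) {s : ℝ} (hs : s ∈ Ico (0 : ℝ) 1) :
    ‖(D b s)⁻¹‖ ≤ (1 - s) ^ (-(1 / 2) : ℝ) := by
  have h1 : 0 < 1 - s := by linarith [hs.2]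
  rw [norm_inv, Real.rpow_neg h1.le]
  exact inv_anti₀ (Real.rpow_pos_of_pos h1 _) (D_lower hD hb hs)

theorem D_cont (hD : S_D) {b : ℂ} (hb : b ∈ Om) :
    ContinuousOn (fun s => D b s) (Ico (0 : ℝ) 1) := by
  obtain ⟨-, -, h, -⟩ := hD
  have h2 : ContinuousOn (fun s : ℝ => ((b, s) : ℂ × ℝ)) (Ico (0 : ℝ) 1) := by
    exact (Continuous.prodMk_right b).continuousOn
  have h3 : MapsTo (fun s : ℝ => ((b, s) : ℂ × ℝ)) (Ico (0 : ℝ) 1) (Om ×ˢ Ico (0 : ℝ) 1) := by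
    intro s hs
    exact Set.mk_mem_prod hb hs
  have h4 := h.comp h2 h3
  exact h4

theorem Dinv_cont (hD : S_D) {b : ℂ} (hb : b ∈ Om) :
    ContinuousOn (fun s => (D b s)⁻¹) (Ico (0 : ℝ) 1) :=
  (D_cont hD hb).inv₀ (fun _ hs => D_ne hD hb hs)

/-- the weight -/
def wt (s : ℝ) : ℝ := (1 - s) ^ (-(3 / 4) : ℝ)

theorem wt_nonneg {s : ℝ} (hs : s ≤ 1) : 0 ≤ wt s := Real.rpow_nonneg (by linarith) _

theorem wt_one_le {s : ℝ} (h0 : 0 ≤ s) (h1 : s < 1) : 1 ≤ wt s := by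
  unfold wt
  exact Real.one_le_rpow_of_pos_of_le_one_of_nonpos (by linarith) (by linarith) (by norm_num)

theorem one_le_wt' {x s : ℝ} (h0 : x ≤ s) (h1 : s < 1) : 1 ≤ (1 - x) ^ (3 / 4 : ℝ) * wt s := by
  have hs : 0 < 1 - s := by linarith
  have h2 : (1 - s) ^ (3 / 4 : ℝ) * wt s = 1 := by
    unfold wt
    rw [← Real.rpow_add hs]; norm_num
  rw [← h2]
  apply mul_le_mul_of_nonneg_right _ (wt_nonneg h1.le)
  exact Real.rpow_le_rpow hs.le (by linarith) (by norm_num)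

theorem ae_ne_one : ∀ᵐ t : ℝ, t ≠ 1 := by
  simp [ae_iff, measure_singleton]

section
variable {A : Type} [NormedCommRing A] [NormedAlgebra ℂ A]

/-- basic integral bound -/
theorem int_bound {H : ℝ → A} {η : ℝ} (hH : NB H η) (F : ℝ → A) (c : ℝ) (hc : 0 ≤ c) (x : ℝ)
    (hx : x ∈ Ico (0 : ℝ) 1)
    (hF : ∀ s ∈ Ioo x 1, ‖F s‖ ≤ c * (‖H s‖ * wt s)) :
    ‖∫ s in x..1, F s‖ ≤ c * η := by
  have hI : IntegrableOn (fun s : ℝ => ‖H s‖ * wt s) (Ioo (0 : ℝ) 1) := hH.2.1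
  have hIc : IntegrableOn (fun s : ℝ => ‖H s‖ * wt s) (Ioc (0 : ℝ) 1) :=
    Iff.mpr integrableOn_Ioc_iff_integrableOn_Ioo hI
  have hII : IntervalIntegrable (fun s : ℝ => ‖H s‖ * wt s) volume x 1 := by
    rw [intervalIntegrable_iff_integrableOn_Ioc_of_le hx.2.le]
    exact hIc.mono_set (Ioc_subset_Ioc_left hx.1)
  have h1 : ‖∫ s in x..1, F s‖ ≤ ∫ s in x..1, c * (‖H s‖ * wt s) := by
    apply intervalIntegral.norm_integral_le_of_norm_le hx.2.le _ (hII.const_mul c)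
    filter_upwards [ae_ne_one] with t ht1 ht
    exact hF t ⟨ht.1, lt_of_le_of_ne ht.2 ht1⟩
  refine le_trans h1 ?_
  rw [intervalIntegral.integral_const_mul]
  apply mul_le_mul_of_nonneg_left _ hc
  refine le_trans ?_ hH.2.2
  rw [intervalIntegral.integral_of_le hx.2.le, ← integral_Ioc_eq_integral_Ioo]
  apply setIntegral_mono_set hIc
  · rw [EventuallyLE, ae_restrict_iff' measurableSet_Ioc]
    apply Eventually.of_forall
    intro s hs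
    exact mul_nonneg (norm_nonneg _) (wt_nonneg hs.2)
  · exact (Ioc_subset_Ioc_left hx.1).eventuallyLE

theorem int_able {H : ℝ → A} {η : ℝ} (hH : NB H η) (F : ℝ → A) (c : ℝ)
    (hm : AEStronglyMeasurable F (volume.restrict (Ioo (0 : ℝ) 1)))
    (hF : ∀ s ∈ Ioo (0 : ℝ) 1, ‖F s‖ ≤ c * (‖H s‖ * wt s)) :
    IntegrableOn F (Ioo (0 : ℝ) 1) := by
  have hI : IntegrableOn (fun s : ℝ => ‖H s‖ * wt s) (Ioo (0 : ℝ) 1) := hH.2.1
  refine Integrable.mono' (hI.const_mul c) hm ?_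
  rw [ae_restrict_iff' measurableSet_Ioo]
  exact Eventually.of_forall hF

theorem ivl {F : ℝ → A} (hF : IntegrableOn F (Ioo (0 : ℝ) 1)) {x y : ℝ} (hx : 0 ≤ x) (hxy : x ≤ y)
    (hy : y ≤ 1) : IntervalIntegrable F volume x y := by
  rw [intervalIntegrable_iff_integrableOn_Ioc_of_le hxy]
  have h : IntegrableOn F (Ioc (0 : ℝ) 1) := Iff.mpr integrableOn_Ioc_iff_integrableOn_Ioo hF
  exact h.mono_set (Ioc_subset_Ioc hx hy)

theorem prim_cont [CompleteSpace A] {F : ℝ → A} (hF : IntegrableOn F (Ioo (0 : ℝ) 1)) :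
    ContinuousOn (fun x => ∫ s in x..1, F s) (Icc (0 : ℝ) 1) := by
  have h : IntegrableOn F (Icc (0 : ℝ) 1) := Iff.mpr integrableOn_Icc_iff_integrableOn_Ioo hF
  have h2 : IntegrableOn F (uIcc (0 : ℝ) 1) := by
    rw [uIcc_of_le (by norm_num)]; exact h
  have h3 := intervalIntegral.continuousOn_primitive_interval_left h2
  rw [uIcc_of_le (by norm_num)] at h3
  exact h3

/-- bound for `D H f` -/
theorem DHf_le (hD : S_D) {b : ℂ} (hb : b ∈ Om) (H f : ℝ → A) (M : ℝ)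
    (hM : ∀ s ∈ Ico (0 : ℝ) 1, ‖f s‖ ≤ M) (x : ℝ) (hx : x ∈ Ico (0 : ℝ) 1) (s : ℝ)
    (hs : s ∈ Ico x 1) :
    ‖D b s • (H s * f s)‖ ≤ ((2 : ℝ) ^ (1 / 4 : ℝ) * ‖D b x‖ * (1 - x) ^ (3 / 4 : ℝ) * M) *
      (‖H s‖ * wt s) := by
  have hM0 : 0 ≤ M := le_trans (norm_nonneg _) (hM x hx)
  have h1 := hD.2.1 b hb x hx s ⟨hs.1, hs.2.le⟩
  have hs0 : s ∈ Ico (0 : ℝ) 1 := ⟨le_trans hx.1 hs.1, hs.2⟩
  rw [norm_smul]
  have h2 : ‖H s * f s‖ ≤ ‖H s‖ * M :=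
    le_trans (norm_mul_le _ _) (mul_le_mul_of_nonneg_left (hM s hs0) (norm_nonneg _))
  have h3 := one_le_wt' hs.1 hs.2
  have hx1 : 0 ≤ (1 - x) ^ (3 / 4 : ℝ) := Real.rpow_nonneg (by linarith [hx.2]) _
  calc ‖D b s‖ * ‖H s * f s‖ ≤ ((2 : ℝ) ^ (1 / 4 : ℝ) * ‖D b x‖) * (‖H s‖ * M) :=
        mul_le_mul h1 h2 (norm_nonneg _) (by positivity)
    _ = ((2 : ℝ) ^ (1 / 4 : ℝ) * ‖D b x‖) * (‖H s‖ * M) * 1 := by ring
    _ ≤ ((2 : ℝ) ^ (1 / 4 : ℝ) * ‖D b x‖) * (‖H s‖ * M) * ((1 - x) ^ (3 / 4 : ℝ) * wt s) :=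
        mul_le_mul_of_nonneg_left h3 (by positivity)
    _ = _ := by ring

theorem meas_smul {H f : ℝ → A} {g : ℝ → ℂ} (hg : ContinuousOn g (Ico (0 : ℝ) 1))
    (hH : AEStronglyMeasurable H (volume.restrict (Ioo (0 : ℝ) 1)))
    (hf : ContinuousOn f (Ico (0 : ℝ) 1)) :
    AEStronglyMeasurable (fun s => g s • (H s * f s)) (volume.restrict (Ioo (0 : ℝ) 1)) := by
  have h1 : AEStronglyMeasurable f (volume.restrict (Ioo (0 : ℝ) 1)) :=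
    (hf.mono Ioo_subset_Ico_self).aestronglyMeasurable measurableSet_Ioo
  have h2 : AEStronglyMeasurable g (volume.restrict (Ioo (0 : ℝ) 1)) :=
    (hg.mono Ioo_subset_Ico_self).aestronglyMeasurable measurableSet_Ioo
  exact h2.smul (hH.mul h1)

theorem DHf_int (hD : S_D) {b : ℂ} (hb : b ∈ Om) {H : ℝ → A} {η : ℝ} (hH : NB H η) {f : ℝ → A}
    (hf : ContinuousOn f (Ico (0 : ℝ) 1)) {M : ℝ} (hM : ∀ s ∈ Ico (0 : ℝ) 1, ‖f s‖ ≤ M) :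
    IntegrableOn (fun s => D b s • (H s * f s)) (Ioo (0 : ℝ) 1) := by
  apply int_able hH _ _ (meas_smul (D_cont hD hb) hH.1 hf)
  intro s hs
  exact DHf_le hD hb H f M hM 0 ⟨le_rfl, by norm_num⟩ s ⟨hs.1.le, hs.2⟩

/-- the operator `W f = 2 D^{-2} ∫_x^1 D H f` -/
def W (H : ℝ → A) (b : ℂ) (f : ℝ → A) (x : ℝ) : A :=
  (2 * (D b x)⁻¹ ^ 2) • ∫ s in x..1, D b s • (H s * f s)

theorem W_le' (hD : S_D) {b : ℂ} (hb : b ∈ Om) {H : ℝ → A} {η : ℝ} (hH : NB H η) (f : ℝ → A)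
    {M : ℝ} (hM : ∀ s ∈ Ico (0 : ℝ) 1, ‖f s‖ ≤ M) (x : ℝ) (hx : x ∈ Ico (0 : ℝ) 1) :
    ‖W H b f x‖ ≤ 2 * (2 : ℝ) ^ (1 / 4 : ℝ) * (1 - x) ^ (1 / 4 : ℝ) * (η * M) := by
  have hM0 : 0 ≤ M := le_trans (norm_nonneg _) (hM x hx)
  have hη : 0 ≤ η := by
    refine le_trans (setIntegral_nonneg measurableSet_Ioo ?_) hH.2.2
    intro s hs
    exact mul_nonneg (norm_nonneg _) (wt_nonneg hs.2.le)
  have hx1 : 0 < 1 - x := by linarith [hx.2]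
  have hx2 : 0 ≤ (1 - x) ^ (3 / 4 : ℝ) := Real.rpow_nonneg hx1.le _
  have h1 := int_bound hH (fun s => D b s • (H s * f s))
    ((2 : ℝ) ^ (1 / 4 : ℝ) * ‖D b x‖ * (1 - x) ^ (3 / 4 : ℝ) * M) (by positivity) x hx
    (fun s hs => DHf_le hD hb H f M hM x hx s ⟨hs.1.le, hs.2⟩)
  unfold W
  rw [norm_smul, norm_mul, norm_pow]
  have hDne : ‖D b x‖ ≠ 0 := norm_ne_zero_iff.mpr (D_ne hD hb hx)
  have hDi : ‖(D b x)⁻¹‖ * ‖D b x‖ = 1 := by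
    rw [norm_inv]; exact inv_mul_cancel₀ hDne
  have h2 := Dinv_le hD hb hx
  have h3 : (1 - x) ^ (-(1 / 2) : ℝ) * (1 - x) ^ (3 / 4 : ℝ) = (1 - x) ^ (1 / 4 : ℝ) := by
    rw [← Real.rpow_add hx1]; norm_num
  have hn2 : ‖(2 : ℂ)‖ = 2 := by simp
  rw [hn2]
  calc 2 * ‖(D b x)⁻¹‖ ^ 2 * ‖∫ s in x..1, D b s • (H s * f s)‖
      ≤ 2 * ‖(D b x)⁻¹‖ ^ 2 *
        ((2 : ℝ) ^ (1 / 4 : ℝ) * ‖D b x‖ * (1 - x) ^ (3 / 4 : ℝ) * M * η) :=
        mul_le_mul_of_nonneg_left h1 (by positivity)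
    _ = (‖(D b x)⁻¹‖ * ‖D b x‖) * (2 * (2 : ℝ) ^ (1 / 4 : ℝ) * (1 - x) ^ (3 / 4 : ℝ) * (η * M)) *
        ‖(D b x)⁻¹‖ := by ring
    _ = (2 * (2 : ℝ) ^ (1 / 4 : ℝ) * (1 - x) ^ (3 / 4 : ℝ) * (η * M)) * ‖(D b x)⁻¹‖ := by
        rw [hDi, one_mul]
    _ ≤ (2 * (2 : ℝ) ^ (1 / 4 : ℝ) * (1 - x) ^ (3 / 4 : ℝ) * (η * M)) *
        (1 - x) ^ (-(1 / 2) : ℝ) := mul_le_mul_of_nonneg_left h2 (by positivity)
    _ = 2 * (2 : ℝ) ^ (1 / 4 : ℝ) * ((1 - x) ^ (-(1 / 2) : ℝ) * (1 - x) ^ (3 / 4 : ℝ)) *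
        (η * M) := by ring
    _ = _ := by rw [h3]

theorem eta_nonneg {H : ℝ → A} {η : ℝ} (hH : NB H η) : 0 ≤ η := by
  refine le_trans (setIntegral_nonneg measurableSet_Ioo ?_) hH.2.2
  intro s hs
  exact mul_nonneg (norm_nonneg _) (wt_nonneg hs.2.le)

theorem W_le (hD : S_D) {b : ℂ} (hb : b ∈ Om) {H : ℝ → A} {η : ℝ} (hH : NB H η) (f : ℝ → A)
    {M : ℝ} (hM : ∀ s ∈ Ico (0 : ℝ) 1, ‖f s‖ ≤ M) (x : ℝ) (hx : x ∈ Ico (0 : ℝ) 1) :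
    ‖W H b f x‖ ≤ (12 / 5) * (η * M) := by
  refine le_trans (W_le' hD hb hH f hM x hx) ?_
  have hM0 : 0 ≤ M := le_trans (norm_nonneg _) (hM x hx)
  have hη := eta_nonneg hH
  have h1 := two_quarter
  have h2 : (1 - x) ^ (1 / 4 : ℝ) ≤ 1 :=
    Real.rpow_le_one (by linarith [hx.2]) (by linarith [hx.1]) (by norm_num)
  have h3 : 0 ≤ (1 - x) ^ (1 / 4 : ℝ) := Real.rpow_nonneg (by linarith [hx.2]) _
  have h4 : 0 ≤ (2 : ℝ) ^ (1 / 4 : ℝ) := by positivity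
  apply mul_le_mul_of_nonneg_right _ (mul_nonneg hη hM0)
  nlinarith

theorem W_sub (hD : S_D) {b : ℂ} (hb : b ∈ Om) {H : ℝ → A} {η : ℝ} (hH : NB H η) {f g : ℝ → A}
    (hf : ContinuousOn f (Ico (0 : ℝ) 1)) {M : ℝ} (hM : ∀ s ∈ Ico (0 : ℝ) 1, ‖f s‖ ≤ M)
    (hg : ContinuousOn g (Ico (0 : ℝ) 1)) {N : ℝ} (hN : ∀ s ∈ Ico (0 : ℝ) 1, ‖g s‖ ≤ N)
    (x : ℝ) (hx : x ∈ Ico (0 : ℝ) 1) :
    W H b f x - W H b g x = W H b (fun s => f s - g s) x := by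
  unfold W
  rw [← smul_sub, ← intervalIntegral.integral_sub]
  · congr 1
    apply intervalIntegral.integral_congr
    intro s _
    simp only
    rw [mul_sub, smul_sub]
  · exact ivl (DHf_int hD hb hH hf hM) hx.1 hx.2.le le_rfl
  · exact ivl (DHf_int hD hb hH hg hN) hx.1 hx.2.le le_rfl

theorem W_cont [CompleteSpace A] (hD : S_D) {b : ℂ} (hb : b ∈ Om) {H : ℝ → A} {η : ℝ}
    (hH : NB H η) {f : ℝ → A}
    (hf : ContinuousOn f (Ico (0 : ℝ) 1)) {M : ℝ} (hM : ∀ s ∈ Ico (0 : ℝ) 1, ‖f s‖ ≤ M) :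
    ContinuousOn (W H b f) (Ico (0 : ℝ) 1) := by
  unfold W
  apply ContinuousOn.smul
  · exact continuousOn_const.mul ((Dinv_cont hD hb).pow 2)
  · exact (prim_cont (DHf_int hD hb hH hf hM)).mono Ico_subset_Icc_self

/-- bound for `D^{-1} H f` -/
theorem DiHf_le (hD : S_D) {b : ℂ} (hb : b ∈ Om) (H f : ℝ → A) (M : ℝ)
    (hM : ∀ s ∈ Ico (0 : ℝ) 1, ‖f s‖ ≤ M) (s : ℝ) (hs : s ∈ Ico (0 : ℝ) 1) :
    ‖(D b s)⁻¹ • (H s * f s)‖ ≤ M * (‖H s‖ * wt s) := by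
  have hM0 : 0 ≤ M := le_trans (norm_nonneg _) (hM s hs)
  rw [norm_smul]
  have h2 : ‖H s * f s‖ ≤ ‖H s‖ * M :=
    le_trans (norm_mul_le _ _) (mul_le_mul_of_nonneg_left (hM s hs) (norm_nonneg _))
  have h3 := Dinv_le hD hb hs
  have h4 : (1 - s) ^ (-(1 / 2) : ℝ) ≤ wt s := by
    unfold wt
    apply Real.rpow_le_rpow_of_exponent_ge (by linarith [hs.2]) (by linarith [hs.1]) (by norm_num)
  calc ‖(D b s)⁻¹‖ * ‖H s * f s‖ ≤ wt s * (‖H s‖ * M) :=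
        mul_le_mul (le_trans h3 h4) h2 (norm_nonneg _) (wt_nonneg hs.2.le)
    _ = _ := by ring

theorem DiHf_int (hD : S_D) {b : ℂ} (hb : b ∈ Om) {H : ℝ → A} {η : ℝ} (hH : NB H η) {f : ℝ → A}
    (hf : ContinuousOn f (Ico (0 : ℝ) 1)) {M : ℝ} (hM : ∀ s ∈ Ico (0 : ℝ) 1, ‖f s‖ ≤ M) :
    IntegrableOn (fun s => (D b s)⁻¹ • (H s * f s)) (Ioo (0 : ℝ) 1) := by
  apply int_able hH _ M (meas_smul (Dinv_cont hD hb) hH.1 hf)
  intro s hs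
  exact DiHf_le hD hb H f M hM s ⟨hs.1.le, hs.2⟩

/-- the operator `V f = ∫_x^1 D^{-1} H f` -/
def V (H : ℝ → A) (b : ℂ) (f : ℝ → A) (x : ℝ) : A :=
  ∫ s in x..1, (D b s)⁻¹ • (H s * f s)

theorem V_le (hD : S_D) {b : ℂ} (hb : b ∈ Om) {H : ℝ → A} {η : ℝ} (hH : NB H η) (f : ℝ → A)
    {M : ℝ} (hM : ∀ s ∈ Ico (0 : ℝ) 1, ‖f s‖ ≤ M) (x : ℝ) (hx : x ∈ Ico (0 : ℝ) 1) :
    ‖V H b f x‖ ≤ M * η := by
  have hM0 : 0 ≤ M := le_trans (norm_nonneg _) (hM x hx)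
  exact int_bound hH _ M hM0 x hx
    (fun s hs => DiHf_le hD hb H f M hM s ⟨le_trans hx.1 hs.1.le, hs.2⟩)

theorem V_sub (hD : S_D) {b : ℂ} (hb : b ∈ Om) {H : ℝ → A} {η : ℝ} (hH : NB H η) {f g : ℝ → A}
    (hf : ContinuousOn f (Ico (0 : ℝ) 1)) {M : ℝ} (hM : ∀ s ∈ Ico (0 : ℝ) 1, ‖f s‖ ≤ M)
    (hg : ContinuousOn g (Ico (0 : ℝ) 1)) {N : ℝ} (hN : ∀ s ∈ Ico (0 : ℝ) 1, ‖g s‖ ≤ N)
    (x : ℝ) (hx : x ∈ Ico (0 : ℝ) 1) :
    V H b f x - V H b g x = V H b (fun s => f s - g s) x := by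
  unfold V
  rw [← intervalIntegral.integral_sub]
  · apply intervalIntegral.integral_congr
    intro s _
    simp only
    rw [mul_sub, smul_sub]
  · exact ivl (DiHf_int hD hb hH hf hM) hx.1 hx.2.le le_rfl
  · exact ivl (DiHf_int hD hb hH hg hN) hx.1 hx.2.le le_rfl

theorem V_cont [CompleteSpace A] (hD : S_D) {b : ℂ} (hb : b ∈ Om) {H : ℝ → A} {η : ℝ}
    (hH : NB H η) {f : ℝ → A}
    (hf : ContinuousOn f (Ico (0 : ℝ) 1)) {M : ℝ} (hM : ∀ s ∈ Ico (0 : ℝ) 1, ‖f s‖ ≤ M) :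
    ContinuousOn (V H b f) (Ico (0 : ℝ) 1) :=
  (prim_cont (DiHf_int hD hb hH hf hM)).mono Ico_subset_Icc_self

end

/-! ### inverses -/

section
variable {A : Type} [NormedCommRing A] [NormOneClass A]

theorem p_le {a : A} (ha : ‖a - 1‖ ≤ 1 / 4) : ‖a‖ ≤ 5 / 4 := by
  have h : a = (a - 1) + 1 := by ring
  rw [h]
  refine le_trans (norm_add_le _ _) ?_
  rw [norm_one]; linarith

theorem q_le {a c : A} (ha : ‖a - 1‖ ≤ 1 / 4) (hac : a * c = 1) : ‖c‖ ≤ 4 / 3 := by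
  have h : c = 1 - (a - 1) * c := by
    rw [sub_mul, hac]; ring
  have h2 : ‖c‖ ≤ 1 + 1 / 4 * ‖c‖ := by
    calc ‖c‖ = ‖1 - (a - 1) * c‖ := by rw [← h]
      _ ≤ ‖(1 : A)‖ + ‖(a - 1) * c‖ := norm_sub_le _ _
      _ ≤ 1 + ‖a - 1‖ * ‖c‖ := by
          rw [norm_one]; linarith [norm_mul_le (a - 1) c]
      _ ≤ _ := by nlinarith [norm_nonneg c]
  linarith

theorem exists_inv [CompleteSpace A] {p : ℝ → A} (hc : ContinuousOn p (Ico (0 : ℝ) 1))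
    (hp : ∀ x ∈ Ico (0 : ℝ) 1, ‖p x - 1‖ ≤ 1 / 4) :
    ∃ q : ℝ → A, ContinuousOn q (Ico (0 : ℝ) 1) ∧ ∀ x ∈ Ico (0 : ℝ) 1, p x * q x = 1 := by
  have hu : ∀ x ∈ Ico (0 : ℝ) 1, IsUnit (p x) := by
    intro x hx
    have h1 : ‖1 - p x‖ < 1 := by
      rw [norm_sub_rev]; linarith [hp x hx]
    have h2 := isUnit_one_sub_of_norm_lt_one h1
    simpa using h2
  refine ⟨fun x => Ring.inverse (p x), ?_, ?_⟩
  · intro x hx
    obtain ⟨u, hu'⟩ := hu x hx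
    have h1 : ContinuousAt Ring.inverse (p x) := by
      rw [← hu']; exact NormedRing.inverse_continuousAt u
    exact h1.comp_continuousWithinAt (hc x hx)
  · intro x hx
    exact Ring.mul_inverse_cancel _ (hu x hx)

end

end Pool.Agent.W571.UN.Base
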