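import Pool.Agent.W648.UN.Stm

set_option autoImplicit false

open MeasureTheory Set Filter Topology Complex

noncomputable section

namespace Pool.Agent.W571.UN.DD

open Pool.Agent.W648.UN

/-- the base point lies in the sector and has positive real part -/
theorem base_re (b : ℂ) (x : ℝ) : (1 - (x : ℂ) ^ 2 + b).re = 1 - x ^ 2 + b.re := by
  simp [pow_two]

theorem base_im (b : ℂ) (x : ℝ) : (1 - (x : ℂ) ^ 2 + b).im = b.im := by
  simp [pow_two]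

theorem om_re {b : ℂ} (hb : b ∈ Om) : 0 ≤ b.re := by
  have h : |b.im| ≤ b.re := hb
  exact le_trans (abs_nonneg _) h

theorem slit {b : ℂ} (hb : b ∈ Om) {x : ℝ} (hx : x ∈ Ico (0 : ℝ) 1) :
    (1 - (x : ℂ) ^ 2 + b) ∈ slitPlane := by
  left
  rw [base_re]
  have h := om_re hb
  nlinarith [hx.1, hx.2]

theorem base_ne {b : ℂ} (hb : b ∈ Om) {x : ℝ} (hx : x ∈ Ico (0 : ℝ) 1) :
    (1 - (x : ℂ) ^ 2 + b) ≠ 0 := slitPlane_ne_zero (slit hb hx)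

theorem D_sq (b : ℂ) (x : ℝ) : D b x ^ 2 = 1 - (x : ℂ) ^ 2 + b := by
  unfold D
  rw [← Complex.cpow_nat_mul]
  norm_num

theorem D_norm_sq (b : ℂ) (x : ℝ) : ‖D b x‖ ^ 2 = ‖1 - (x : ℂ) ^ 2 + b‖ := by
  rw [← norm_pow, D_sq]

theorem sector_le {w : ℂ} (h : |w.im| ≤ w.re) : ‖w‖ ≤ Real.sqrt 2 * w.re := by
  have h0 : 0 ≤ w.re := le_trans (abs_nonneg _) h
  rw [Complex.norm_def]
  apply Real.sqrt_le_iff.mpr
  refine ⟨by positivity, ?_⟩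
  rw [mul_pow, Real.sq_sqrt (by norm_num), Complex.normSq_apply]
  have h1 : w.im ^ 2 ≤ w.re ^ 2 := by
    have := sq_le_sq' (by linarith [neg_abs_le w.im]) (le_trans (le_abs_self _) h)
    exact this
  nlinarith

theorem D_re (b : ℂ) (hb : b ∈ Om) (x : ℝ) (hx : x ∈ Ico (0 : ℝ) 1) :
    (9 / 10) * ‖D b x‖ ≤ (D b x).re := by
  have hs := slit hb hx
  have hne := base_ne hb hx
  set z : ℂ := 1 - (x : ℂ) ^ 2 + b with hz
  have hre : 0 < z.re := by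
    rw [hz, base_re]
    nlinarith [hx.1, hx.2, om_re hb]
  have him : |z.im| ≤ z.re := by
    rw [hz, base_re, base_im]
    have h : |b.im| ≤ b.re := hb
    nlinarith [hx.1, hx.2]
  -- D = u + i v, u ≥ 0, u^2 - v^2 = z.re, 2uv = z.im
  have hD2 : D b x ^ 2 = z := D_sq b x
  have hu0 : 0 ≤ (D b x).re := by
    have h1 : D b x = z ^ (1 / 2 : ℂ) := rfl
    rw [h1, Complex.cpow_def_of_ne_zero hne, Complex.exp_re]
    apply mul_nonneg (Real.exp_pos _).le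
    apply Real.cos_nonneg_of_mem_Icc
    have h2 : (Complex.log z * (1 / 2 : ℂ)).im = z.arg / 2 := by
      rw [show (1 / 2 : ℂ) = ((1 / 2 : ℝ) : ℂ) by push_cast; rfl, Complex.im_mul_ofReal,
        Complex.log_im]
      ring
    rw [h2]
    constructor
    · linarith [Complex.neg_pi_lt_arg z, Real.pi_pos]
    · linarith [Complex.arg_le_pi z, Real.pi_pos]
  set u := (D b x).re with hu
  set v := (D b x).im with hv
  have e1 : u ^ 2 - v ^ 2 = z.re := by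
    rw [← hD2, pow_two (D b x), Complex.mul_re]; ring
  have e2 : 2 * u * v = z.im := by
    rw [← hD2, pow_two (D b x), Complex.mul_im]; ring
  have e3 : ‖D b x‖ ^ 2 = u ^ 2 + v ^ 2 := by
    rw [← Complex.normSq_eq_norm_sq, Complex.normSq_apply]; ring
  -- want 81/100 (u^2+v^2) ≤ u^2, i.e. v^2 * 81 ≤ 19 u^2
  have e4 : |2 * u * v| ≤ u ^ 2 - v ^ 2 := by rw [e1, e2]; exact him
  have e5 : 2 * u * |v| ≤ u ^ 2 - v ^ 2 := by
    rw [abs_mul, abs_mul, abs_of_nonneg hu0, abs_two] at e4; exact e4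
  have e6 : |v| ^ 2 = v ^ 2 := sq_abs v
  have hva : 0 ≤ |v| := abs_nonneg v
  have e7 : |v| ≤ 0.415 * u := by
    by_contra hcon
    push Not at hcon
    nlinarith
  have e8 : v ^ 2 * 81 ≤ 19 * u ^ 2 := by
    nlinarith
  have e9 : ((9 / 10) * ‖D b x‖) ^ 2 ≤ u ^ 2 := by
    rw [mul_pow, e3]; nlinarith
  exact le_of_sq_le_sq e9 hu0
  where
    le_of_sq_le_sq {a c : ℝ} (h : a ^ 2 ≤ c ^ 2) (hc : 0 ≤ c) : a ≤ c := by
      exact le_of_abs_le (by simpa [abs_of_nonneg hc] using (sq_le_sq.mp h))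

theorem nb_le {b : ℂ} (hb : b ∈ Om) {x : ℝ} (hx : x ∈ Ico (0 : ℝ) 1) :
    ‖b‖ ≤ ‖1 - (x : ℂ) ^ 2 + b‖ := by
  rw [Complex.norm_def, Complex.norm_def]
  apply Real.sqrt_le_sqrt
  rw [Complex.normSq_apply, Complex.normSq_apply, base_re, base_im]
  have h := om_re hb
  have h1 : 0 ≤ 1 - x ^ 2 := by nlinarith [hx.1, hx.2]
  nlinarith

theorem part1 : ∀ b ∈ Om, ∀ x ∈ Ico (0 : ℝ) 1, D b x ≠ 0 ∧ D b x ^ 2 = 1 - (x : ℂ) ^ 2 + b ∧
    1 - x ≤ ‖D b x‖ ^ 2 ∧ ‖b‖ ≤ ‖D b x‖ ^ 2 ∧ (9 / 10) * ‖D b x‖ ≤ (D b x).re := by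
  intro b hb x hx
  refine ⟨?_, D_sq b x, ?_, ?_, D_re b hb x hx⟩
  · intro h
    have := D_sq b x
    rw [h] at this
    apply base_ne hb hx
    rw [← this]; simp
  · rw [D_norm_sq]
    refine le_trans ?_ (Complex.re_le_norm _)
    rw [base_re]
    nlinarith [hx.1, hx.2, om_re hb]
  · rw [D_norm_sq]
    exact nb_le hb hx

theorem part2 : ∀ b ∈ Om, ∀ x ∈ Ico (0 : ℝ) 1, ∀ s ∈ Icc x 1,
    ‖D b s‖ ≤ (2 : ℝ) ^ (1 / 4 : ℝ) * ‖D b x‖ := by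
  intro b hb x hx s hs
  have h0 : (0 : ℝ) ≤ (2 : ℝ) ^ (1 / 4 : ℝ) * ‖D b x‖ := by positivity
  have h1 : ‖D b s‖ ^ 2 ≤ ((2 : ℝ) ^ (1 / 4 : ℝ) * ‖D b x‖) ^ 2 := by
    rw [mul_pow, D_norm_sq, D_norm_sq, ← Real.rpow_natCast ((2 : ℝ) ^ (1 / 4 : ℝ)) 2,
      ← Real.rpow_mul (by norm_num)]
    have h2 : (1 / 4 : ℝ) * ((2 : ℕ) : ℝ) = 1 / 2 := by norm_num
    rw [h2, ← Real.sqrt_eq_rpow]
    have hbi : |b.im| ≤ b.re := hb
    have hs1 : s ^ 2 ≤ 1 := by nlinarith [hs.1, hs.2, hx.1]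
    have hxs : x ^ 2 ≤ s ^ 2 := by nlinarith [hs.1, hs.2, hx.1]
    have h3 : ‖1 - (s : ℂ) ^ 2 + b‖ ≤ Real.sqrt 2 * (1 - (s : ℂ) ^ 2 + b).re := by
      apply sector_le
      rw [base_re, base_im]
      linarith
    refine le_trans h3 ?_
    apply mul_le_mul_of_nonneg_left _ (Real.sqrt_nonneg _)
    refine le_trans ?_ (Complex.re_le_norm _)
    rw [base_re, base_re]
    linarith
  exact D_re.le_of_sq_le_sq h1 h0

theorem part3 : ContinuousOn (fun z : ℂ × ℝ => D z.1 z.2) (Om ×ˢ Ico (0 : ℝ) 1) := by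
  unfold D
  apply ContinuousOn.cpow_const
  · fun_prop
  · intro z hz
    exact slit hz.1 hz.2

theorem part4 : ∀ x ∈ Ico (0 : ℝ) 1, ∀ b ∈ Om,
    HasDerivAt (fun b => D b x) ((1 / 2) * (D b x)⁻¹) b := by
  intro x hx b hb
  have hs := slit hb hx
  have h1 : HasDerivAt (fun b : ℂ => 1 - (x : ℂ) ^ 2 + b) 1 b := by
    simpa using (hasDerivAt_id b).const_add (1 - (x : ℂ) ^ 2)
  have h2 := h1.cpow_const (c := (1 / 2 : ℂ)) hs
  have h3 : (1 / 2 : ℂ) * (1 - (x : ℂ) ^ 2 + b) ^ ((1 / 2 : ℂ) - 1) * 1 =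
      (1 / 2) * (D b x)⁻¹ := by
    unfold D
    rw [mul_one, ← Complex.cpow_neg]
    norm_num
  rw [h3] at h2
  exact h2

theorem part5 : ∀ b : ℝ, 0 ≤ b → ∀ x ∈ Icc (0 : ℝ) 1,
    D (b : ℂ) x = ((Real.sqrt (1 - x ^ 2 + b) : ℝ) : ℂ) := by
  intro b hb x hx
  unfold D
  rw [Real.sqrt_eq_rpow, Complex.ofReal_cpow (by nlinarith [hx.1, hx.2])]
  push_cast
  rfl

end Pool.Agent.W571.UN.DD

namespace Pool.Agent.W571.UN.D

theorem th : Pool.Agent.W648.UN.S_D :=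
  ⟨DD.part1, DD.part2, DD.part3, DD.part4, DD.part5⟩

end Pool.Agent.W571.UN.D
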