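import Pool.Agent.W571.UN.Base

set_option autoImplicit false
set_option linter.unusedSectionVars false

open MeasureTheory Set Filter Topology

noncomputable section

namespace Pool.Agent.W571.UN.Ex

open Pool.Agent.W648.UN Pool.Agent.W571.UN.Base

theorem th (hD : S_D) : S_EX := by
  intro A _ _ _ _ H b hH hb
  have hhalf : ‖(1 / 2 : ℂ)‖ = 1 / 2 := by simp
  -- p
  obtain ⟨p, hpc, hpb, hpf⟩ := fixpt (A := A) 1 (1 / 4) (by norm_num)
    (fun f x => 1 + (1 / 2 : ℂ) • (W H b f x - (f x - 1) ^ 2))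
    (by
      intro f hf hfb
      have hfM : ∀ x ∈ Ico (0 : ℝ) 1, ‖f x‖ ≤ 5 / 4 := fun x hx => p_le (hfb x hx)
      refine ⟨?_, ?_⟩
      · have h1 := W_cont hD hb hH hf hfM
        exact continuousOn_const.add
          ((h1.sub ((hf.sub continuousOn_const).pow 2)).const_smul _)
      · intro x hx
        have h1 := W_le hD hb hH f hfM x hx
        have h2 : ‖(f x - 1) ^ 2‖ ≤ (1 / 4) ^ 2 := by
          refine le_trans (norm_pow_le _ 2) ?_
          exact pow_le_pow_left₀ (norm_nonneg _) (hfb x hx) 2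
        rw [add_sub_cancel_left, norm_smul, hhalf]
        have h3 := norm_sub_le (W H b f x) ((f x - 1) ^ 2)
        linarith)
    (by
      intro f g hf hfb hg hgb δ hδ x hx
      have hfM : ∀ x ∈ Ico (0 : ℝ) 1, ‖f x‖ ≤ 5 / 4 := fun x hx => p_le (hfb x hx)
      have hgM : ∀ x ∈ Ico (0 : ℝ) 1, ‖g x‖ ≤ 5 / 4 := fun x hx => p_le (hgb x hx)
      have h1 := W_sub hD hb hH hf hfM hg hgM x hx
      have h2 := W_le hD hb hH (fun s => f s - g s) hδ x hx
      have h3 : (1 + (1 / 2 : ℂ) • (W H b f x - (f x - 1) ^ 2)) -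
          (1 + (1 / 2 : ℂ) • (W H b g x - (g x - 1) ^ 2)) =
          (1 / 2 : ℂ) • (W H b (fun s => f s - g s) x -
            (f x - g x) * ((f x - 1) + (g x - 1))) := by
        rw [add_sub_add_left_eq_sub, ← smul_sub, ← h1]
        congr 1
        ring
      rw [h3, norm_smul, hhalf]
      have h4 : ‖(f x - g x) * ((f x - 1) + (g x - 1))‖ ≤ δ * (1 / 4 + 1 / 4) := by
        refine le_trans (norm_mul_le _ _) ?_
        apply mul_le_mul (hδ x hx) _ (norm_nonneg _) (le_trans (norm_nonneg _) (hδ x hx))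
        exact le_trans (norm_add_le _ _) (add_le_add (hfb x hx) (hgb x hx))
      have h5 := norm_sub_le (W H b (fun s => f s - g s) x)
        ((f x - g x) * ((f x - 1) + (g x - 1)))
      have h6 : 0 ≤ δ := le_trans (norm_nonneg _) (hδ x hx)
      linarith)
  have hpM : ∀ x ∈ Ico (0 : ℝ) 1, ‖p x‖ ≤ 5 / 4 := fun x hx => p_le (hpb x hx)
  -- q
  obtain ⟨q, hqc, hpq⟩ := exists_inv hpc hpb
  have hqM : ∀ x ∈ Ico (0 : ℝ) 1, ‖q x‖ ≤ 4 / 3 := fun x hx => q_le (hpb x hx) (hpq x hx)
  -- E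
  obtain ⟨E, hEc, hEb, hEf⟩ := fixpt (A := A) 1 (1 / 4) (by norm_num)
    (fun f x => 1 + V H b (fun s => q s * f s) x)
    (by
      intro f hf hfb
      have hfM : ∀ x ∈ Ico (0 : ℝ) 1, ‖q x * f x‖ ≤ 4 / 3 * (5 / 4) := fun x hx =>
        le_trans (norm_mul_le _ _)
          (mul_le_mul (hqM x hx) (p_le (hfb x hx)) (norm_nonneg _) (by norm_num))
      refine ⟨?_, ?_⟩
      · exact continuousOn_const.add (V_cont hD hb hH (hqc.mul hf) hfM)
      · intro x hx
        have h1 := V_le hD hb hH (fun s => q s * f s) hfM x hx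
        rw [add_sub_cancel_left]
        linarith)
    (by
      intro f g hf hfb hg hgb δ hδ x hx
      have hfM : ∀ x ∈ Ico (0 : ℝ) 1, ‖q x * f x‖ ≤ 4 / 3 * (5 / 4) := fun x hx =>
        le_trans (norm_mul_le _ _)
          (mul_le_mul (hqM x hx) (p_le (hfb x hx)) (norm_nonneg _) (by norm_num))
      have hgM : ∀ x ∈ Ico (0 : ℝ) 1, ‖q x * g x‖ ≤ 4 / 3 * (5 / 4) := fun x hx =>
        le_trans (norm_mul_le _ _)
          (mul_le_mul (hqM x hx) (p_le (hgb x hx)) (norm_nonneg _) (by norm_num))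
      have h1 : V H b (fun s => q s * f s) x - V H b (fun s => q s * g s) x =
          V H b (fun s => q s * f s - q s * g s) x :=
        V_sub hD hb hH (hqc.mul hf) hfM (hqc.mul hg) hgM x hx
      have h6 : 0 ≤ δ := le_trans (norm_nonneg _) (hδ x hx)
      have h2 := V_le hD hb hH (fun s => q s * f s - q s * g s) (M := 4 / 3 * δ) (by
        intro s hs
        rw [← mul_sub]
        exact le_trans (norm_mul_le _ _)
          (mul_le_mul (hqM s hs) (hδ s hs) (norm_nonneg _) (by norm_num))) x hx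
      rw [add_sub_add_left_eq_sub, h1]
      linarith)
  refine ⟨p, q, E, ⟨hpc, hqc, hEc, hpb, hEb, hpq, ?_, ?_⟩⟩
  · intro x hx
    have h := hpf x hx
    have h2 : (2 : ℂ) • (1 + (1 / 2 : ℂ) • (W H b p x - (p x - 1) ^ 2)) = (2 : ℂ) • p x := by
      rw [h]
    rw [smul_add, smul_smul] at h2
    have h3 : (2 : ℂ) * (1 / 2) = 1 := by norm_num
    rw [h3, one_smul] at h2
    have h4 : (2 : ℂ) • (1 : A) = 2 := by
      rw [Algebra.smul_def, mul_one]; exact map_ofNat (algebraMap ℂ A) 2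
    have h5 : (2 : ℂ) • p x = 2 * p x := by
      rw [Algebra.smul_def]; rw [map_ofNat (algebraMap ℂ A) 2]
    rw [h4, h5] at h2
    have h6 : p x ^ 2 = 1 + W H b p x := by
      linear_combination -h2
    exact h6
  · intro x hx
    have h := hEf x hx
    rw [← h]
    congr 1
    unfold V
    apply intervalIntegral.integral_congr
    intro s _
    simp only
    rw [mul_assoc]

end Pool.Agent.W571.UN.Ex
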