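import Pool.Agent.W571.UN.Base

set_option autoImplicit false
set_option linter.unusedSectionVars false

open MeasureTheory Set Filter Topology

noncomputable section

namespace Pool.Agent.W571.UN.Un

open Pool.Agent.W648.UN Pool.Agent.W571.UN.Base

/-- an integral over `[x,1]` only sees `[x,1)` minus the left end point -/
theorem icongr {A : Type} [NormedAddCommGroup A] [NormedSpace ℝ A] {x : ℝ} (hx : x ≤ 1)
    {f g : ℝ → A} (h : ∀ s ∈ Ioo x 1, f s = g s) : ∫ s in x..1, f s = ∫ s in x..1, g s := by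
  apply intervalIntegral.integral_congr_ae
  filter_upwards [ae_ne_one] with t ht1 ht
  rw [uIoc_of_le hx] at ht
  exact h t ⟨ht.1, lt_of_le_of_ne ht.2 ht1⟩

theorem th (hD : S_D) : S_UN := by
  intro A _ _ _ _ H b p q E p' q' E' hH hb h h'
  have hpM : ∀ x ∈ Ico (0 : ℝ) 1, ‖p x‖ ≤ 5 / 4 := fun x hx => p_le (h.bp x hx)
  have hpM' : ∀ x ∈ Ico (0 : ℝ) 1, ‖p' x‖ ≤ 5 / 4 := fun x hx => p_le (h'.bp x hx)
  have hEM : ∀ x ∈ Ico (0 : ℝ) 1, ‖E x‖ ≤ 5 / 4 := fun x hx => p_le (h.bE x hx)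
  have hEM' : ∀ x ∈ Ico (0 : ℝ) 1, ‖E' x‖ ≤ 5 / 4 := fun x hx => p_le (h'.bE x hx)
  have hqM : ∀ x ∈ Ico (0 : ℝ) 1, ‖q x‖ ≤ 4 / 3 := fun x hx => q_le (h.bp x hx) (h.pq x hx)
  have hqM' : ∀ x ∈ Ico (0 : ℝ) 1, ‖q' x‖ ≤ 4 / 3 := fun x hx => q_le (h'.bp x hx) (h'.pq x hx)
  have hhalf : ‖(1 / 2 : ℂ)‖ = 1 / 2 := by simp
  -- p
  have hd := zero_of_half (fun x => p x - p' x) (Ico (0 : ℝ) 1) (5 / 4 + 5 / 4)
    (fun x hx => le_trans (norm_sub_le _ _) (add_le_add (hpM x hx) (hpM' x hx)))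
    (by
      intro δ hδ x hx
      have h1 := W_sub hD hb hH h.cp hpM h'.cp hpM' x hx
      have h2 := W_le hD hb hH (fun s => p s - p' s) hδ x hx
      have e1 : p x ^ 2 = 1 + W H b p x := h.ep x hx
      have e2 : p' x ^ 2 = 1 + W H b p' x := h'.ep x hx
      have h3 : (2 : ℂ) • (p x - p' x) = W H b (fun s => p s - p' s) x -
          (p x - p' x) * ((p x - 1) + (p' x - 1)) := by
        rw [← h1, Algebra.smul_def, map_ofNat (algebraMap ℂ A) 2]
        linear_combination e1 - e2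
      have h4 : ‖(p x - p' x) * ((p x - 1) + (p' x - 1))‖ ≤ δ * (1 / 4 + 1 / 4) := by
        refine le_trans (norm_mul_le _ _) ?_
        apply mul_le_mul (hδ x hx) _ (norm_nonneg _) (le_trans (norm_nonneg _) (hδ x hx))
        exact le_trans (norm_add_le _ _) (add_le_add (h.bp x hx) (h'.bp x hx))
      have h5 := norm_sub_le (W H b (fun s => p s - p' s) x)
        ((p x - p' x) * ((p x - 1) + (p' x - 1)))
      have h6 : 0 ≤ δ := le_trans (norm_nonneg _) (hδ x hx)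
      have h7 : ‖(2 : ℂ) • (p x - p' x)‖ = 2 * ‖p x - p' x‖ := by
        rw [norm_smul]; simp
      rw [h3] at h7
      show ‖p x - p' x‖ ≤ δ / 2
      linarith)
  have hp : ∀ x ∈ Ico (0 : ℝ) 1, p x = p' x := fun x hx => sub_eq_zero.mp (hd x hx)
  have hq : ∀ x ∈ Ico (0 : ℝ) 1, q x = q' x := by
    intro x hx
    have e1 := h.pq x hx
    have e2 := h'.pq x hx
    rw [← hp x hx] at e2
    calc q x = (p x * q' x) * q x := by rw [e2, one_mul]
      _ = (p x * q x) * q' x := by ring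
      _ = q' x := by rw [e1, one_mul]
  have hE := zero_of_half (fun x => E x - E' x) (Ico (0 : ℝ) 1) (5 / 4 + 5 / 4)
    (fun x hx => le_trans (norm_sub_le _ _) (add_le_add (hEM x hx) (hEM' x hx)))
    (by
      intro δ hδ x hx
      have h6 : 0 ≤ δ := le_trans (norm_nonneg _) (hδ x hx)
      have hfM : ∀ x ∈ Ico (0 : ℝ) 1, ‖q x * E x‖ ≤ 4 / 3 * (5 / 4) := fun x hx =>
        le_trans (norm_mul_le _ _)
          (mul_le_mul (hqM x hx) (hEM x hx) (norm_nonneg _) (by norm_num))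
      have hgM : ∀ x ∈ Ico (0 : ℝ) 1, ‖q x * E' x‖ ≤ 4 / 3 * (5 / 4) := fun x hx =>
        le_trans (norm_mul_le _ _)
          (mul_le_mul (hqM x hx) (hEM' x hx) (norm_nonneg _) (by norm_num))
      have h1 : V H b (fun s => q s * E s) x - V H b (fun s => q s * E' s) x =
          V H b (fun s => q s * E s - q s * E' s) x :=
        V_sub hD hb hH (h.cq.mul h.cE) hfM (h.cq.mul h'.cE) hgM x hx
      have h2 := V_le hD hb hH (fun s => q s * E s - q s * E' s) (M := 4 / 3 * δ) (by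
        intro s hs
        rw [← mul_sub]
        exact le_trans (norm_mul_le _ _)
          (mul_le_mul (hqM s hs) (hδ s hs) (norm_nonneg _) (by norm_num))) x hx
      have e1 : E x = 1 + V H b (fun s => q s * E s) x := by
        rw [h.eE x hx]
        congr 1
        apply intervalIntegral.integral_congr
        intro s _
        simp only
        rw [mul_assoc]
      have e2 : E' x = 1 + V H b (fun s => q s * E' s) x := by
        rw [h'.eE x hx]
        congr 1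
        apply icongr hx.2.le
        intro s hs
        rw [← hq s ⟨le_trans hx.1 hs.1.le, hs.2⟩, mul_assoc]
      show ‖E x - E' x‖ ≤ δ / 2
      rw [e1, e2, add_sub_add_left_eq_sub, h1]
      linarith)
  intro x hx
  exact ⟨hp x hx, hq x hx, sub_eq_zero.mp (hE x hx)⟩

theorem upsOf_congr {A : Type} [NormedCommRing A] [NormedAlgebra ℂ A] (b : ℂ) {q E q' E' : ℝ → A}
    (hq : ∀ x ∈ Ico (0 : ℝ) 1, q x = q' x) (hE : ∀ x ∈ Ico (0 : ℝ) 1, E x = E' x) :
    upsOf b q E = upsOf b q' E' := by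
  unfold upsOf
  have h0 : (0 : ℝ) ∈ Ico (0 : ℝ) 1 := ⟨le_rfl, by norm_num⟩
  rw [hq 0 h0, hE 0 h0]
  congr 1
  apply icongr (by norm_num)
  intro s hs
  rw [hq s ⟨hs.1.le, hs.2⟩, hE s ⟨hs.1.le, hs.2⟩]

theorem tauOf_congr {A : Type} [NormedCommRing A] [NormedAlgebra ℂ A] (b : ℂ) {q q' : ℝ → A}
    (hq : ∀ x ∈ Ico (0 : ℝ) 1, q x = q' x) :
    tauOf b q = tauOf b q' := by
  unfold tauOf
  apply icongr (by norm_num)
  intro s hs
  rw [hq s ⟨hs.1.le, hs.2⟩]

theorem ups (h : S_UN) : S_UPS := by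
  intro A _ _ _ _ H b p q E hH hb hS
  have hex : ∃ s : (ℝ → A) × (ℝ → A) × (ℝ → A), Sol H b s.1 s.2.1 s.2.2 := ⟨(p, q, E), hS⟩
  have hc := Classical.choose_spec hex
  have hu := h A H b _ _ _ _ _ _ hH hb hc hS
  constructor
  · unfold Ups
    rw [dif_pos hex]
    exact upsOf_congr b (fun x hx => (hu x hx).2.1) (fun x hx => (hu x hx).2.2)
  · unfold Tau
    rw [dif_pos hex]
    exact tauOf_congr b (fun x hx => (hu x hx).2.1)

theorem sol_congr {A : Type} [NormedCommRing A] [NormedAlgebra ℂ A] {H K : ℝ → A} {b : ℂ}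
    {p q E : ℝ → A} (hHK : ∀ x ∈ Ioo (0 : ℝ) 1, H x = K x) (h : Sol H b p q E) :
    Sol K b p q E where
  cp := h.cp
  cq := h.cq
  cE := h.cE
  bp := h.bp
  bE := h.bE
  pq := h.pq
  ep := by
    intro x hx
    rw [h.ep x hx]
    congr 2
    apply icongr hx.2.le
    intro s hs
    rw [hHK s ⟨lt_of_le_of_lt hx.1 hs.1, hs.2⟩]
  eE := by
    intro x hx
    rw [h.eE x hx]
    congr 1
    apply icongr hx.2.le
    intro s hs
    rw [hHK s ⟨lt_of_le_of_lt hx.1 hs.1, hs.2⟩]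

theorem congr' (_h : S_UN) : S_CONGR := by
  intro A _ _ _ _ H K b _ _ hHK
  have hS : (Sol H b : (ℝ → A) → (ℝ → A) → (ℝ → A) → Prop) = Sol K b := by
    funext p q E
    apply propext
    exact ⟨fun h => sol_congr hHK h, fun h => sol_congr (fun x hx => (hHK x hx).symm) h⟩
  constructor
  · unfold Ups
    rw [hS]
  · unfold Tau
    rw [hS]

theorem congr (h : S_UN) : S_CONGR := congr' h

end Pool.Agent.W571.UN.Un
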